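import Mathlib
import Pool.Agent.H241R2.RBW.FourFinal

open Matrix Module

namespace Pool.Agent.Results.MP_f4742e_al.DegreeFour

open JRB JRB2

/-- The set of all natural numbers `k` such that `R ^ k = 0` for every Rota-Baxter operator `R` of
weight `0` for the product `mul`. -/
def rbSet (F : Type*) [Field F] {V : Type*} [AddCommGroup V] [Module F V] (mul : V → V → V) : Set ℕ :=
  {k | ∀ R : V →ₗ[F] V, IsRB F mul R → R ^ k = 0}

/-- `m` is the RB-index of the algebra `(V, mul)`. -/
def IsRBIndex (F : Type*) [Field F] {V : Type*} [AddCommGroup V] [Module F V] (mul : V → V → V)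
    (m : ℕ) : Prop := IsLeast (rbSet F mul) m

/-- **Theorem.** Let `F` be a field of characteristic `0`, `S` an invertible symmetric `4 × 4` matrix
over `F` and `J = H(M_4(F), x ↦ S⁻¹ xᵀ S)` the Jordan algebra of self-adjoint matrices of the
symmetric bilinear form `bf S u v = uᵀ S v`.

* If the form is isotropic then the RB-index of `J` is `3`.
* If the form is anisotropic then the RB-index of `J` is `2`.
* If `F` is algebraically closed then the form is isotropic; so `rb (H_4(F)) = 3` (take `S = 1`). -/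
theorem result (F : Type*) [Field F] [CharZero F] (S : Matrix (Fin 4) (Fin 4) F) (hS : Sᵀ = S)
    (hu : IsUnit S.det) :
    ((∃ v, v ≠ 0 ∧ bf S v v = 0) → IsRBIndex F (hermMul (adjS S) (adjS_mul hu)) 3) ∧
      ((¬ ∃ v, v ≠ 0 ∧ bf S v v = 0) → IsRBIndex F (hermMul (adjS S) (adjS_mul hu)) 2) ∧
      (IsAlgClosed F → IsRBIndex F (hermMul (adjS S) (adjS_mul hu)) 3) := by
  classical
  have hiso : (∃ v, v ≠ 0 ∧ bf S v v = 0) → IsRBIndex F (hermMul (adjS S) (adjS_mul hu)) 3 := by
    rintro ⟨e, he, hee⟩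
    refine ⟨fun R hR => JRB3.four_upper hS hu R hR, ?_⟩
    intro k hk
    by_contra hlt
    by_cases hw1 : ∀ U : Submodule F (Fin 4 → F), (∀ u ∈ U, ∀ v ∈ U, bf S u v = 0) → finrank F U ≤ 1
    · obtain ⟨R, hR, hne2⟩ := JRB3.lower_one (le_refl 4) hS hu hw1 e he hee
      exact hne2 (pow_eq_zero_of_le (by omega) (hk R hR))
    · push Not at hw1
      obtain ⟨U, hU, hd⟩ := hw1
      obtain ⟨R, hR, hne2⟩ := lower_bound hS hu (finrank F U) (by omega) U hU rfl
      exact hne2 (pow_eq_zero_of_le (by omega) (hk R hR))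
  refine ⟨hiso, ?_, ?_⟩
  · intro han
    have hw0 : ∀ U : Submodule F (Fin 4 → F), (∀ u ∈ U, ∀ v ∈ U, bf S u v = 0) → finrank F U ≤ 0 := by
      intro U hU
      by_contra hlt
      have hne : U ≠ ⊥ := by
        intro h
        rw [h, finrank_bot] at hlt
        exact hlt le_rfl
      obtain ⟨e, heU, he⟩ := Submodule.exists_mem_ne_zero_of_ne_bot hne
      exact han ⟨e, he, hU e heU e heU⟩
    refine ⟨fun R hR => upper_bound (by norm_num) hS hu 0 hw0 R hR, ?_⟩
    intro k hk
    by_contra hlt
    obtain ⟨R, hR, hne⟩ := exists_nonzero (F := F) (by norm_num : 2 ≤ 4) hS hu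
    apply hne
    have h2 : R ^ 1 = 0 := pow_eq_zero_of_le (by omega) (hk R hR)
    simpa using h2
  · intro hF
    apply hiso
    by_contra han
    have hw0 : ∀ U : Submodule F (Fin 4 → F), (∀ u ∈ U, ∀ v ∈ U, bf S u v = 0) → finrank F U ≤ 0 := by
      intro U hU
      by_contra hlt
      have hne : U ≠ ⊥ := by
        intro h
        rw [h, finrank_bot] at hlt
        exact hlt le_rfl
      obtain ⟨e, heU, he⟩ := Submodule.exists_mem_ne_zero_of_ne_bot hne
      exact han ⟨e, he, hU e heU e heU⟩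
    have h0 := witt_closed hS 0 ⟨⟨⊥, by
      intro u hu' v _
      rw [Submodule.mem_bot] at hu'
      rw [hu', bf_zero_left], finrank_bot F _⟩, by
      rintro d ⟨U, hU, rfl⟩
      exact hw0 U hU⟩
    norm_num at h0

end Pool.Agent.Results.MP_f4742e_al.DegreeFour
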