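import Mathlib
import Pool.Agent.H241R2.RBW.Final

open Matrix Module

namespace Pool.Agent.Results.MP_f4742e_al.DegreeThreeAndWittOne

open JRB JRB2

/-- The set of all natural numbers `k` such that `R ^ k = 0` for every Rota-Baxter operator `R` of
weight `0` for the product `mul`. -/
def rbSet (F : Type*) [Field F] {V : Type*} [AddCommGroup V] [Module F V] (mul : V → V → V) : Set ℕ :=
  {k | ∀ R : V →ₗ[F] V, IsRB F mul R → R ^ k = 0}

/-- `m` is the RB-index of the algebra `(V, mul)`. -/
def IsRBIndex (F : Type*) [Field F] {V : Type*} [AddCommGroup V] [Module F V] (mul : V → V → V)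
    (m : ℕ) : Prop := IsLeast (rbSet F mul) m

/-- `w` is the Witt index of the symmetric bilinear form with Gram matrix `S`: the largest dimension
of a totally isotropic subspace. -/
def IsWittIndex {F : Type*} [Field F] {n : ℕ} (S : Matrix (Fin n) (Fin n) F) (w : ℕ) : Prop :=
  IsGreatest {d | ∃ U : Submodule F (Fin n → F), (∀ u ∈ U, ∀ v ∈ U, bf S u v = 0) ∧ finrank F U = d} w

/-- **Theorem.** Let `F` be a field of characteristic `0`, `n ≥ 3`, `S` an invertible symmetric
`n × n` matrix over `F` and `w` the Witt index of the symmetric bilinear form with Gram matrix `S`.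
Let `J = H(M_n(F), x ↦ S⁻¹ xᵀ S)` be the Jordan algebra of self-adjoint matrices.

* If `n = 3` then the RB-index of `J` is `2`. In particular `rb (H_3(F)) = 2` for every field `F` of
  characteristic `0`, for instance for algebraically closed `F`.
* If `n ≥ 4` and `w = 1` then the RB-index of `J` is `3`. -/
theorem result (F : Type*) [Field F] [CharZero F] (n : ℕ) (hn : 3 ≤ n)
    (S : Matrix (Fin n) (Fin n) F) (hS : Sᵀ = S) (hu : IsUnit S.det) (w : ℕ) (hw : IsWittIndex S w) :
    (n = 3 → IsRBIndex F (hermMul (adjS S) (adjS_mul hu)) 2) ∧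
      (4 ≤ n → w = 1 → IsRBIndex F (hermMul (adjS S) (adjS_mul hu)) 3) := by
  constructor
  · intro hn3
    have hw1 : ∀ U : Submodule F (Fin n → F), (∀ u ∈ U, ∀ v ∈ U, bf S u v = 0) → finrank F U ≤ 1 := by
      intro U hU
      have := JRB3.witt_two_le hS hu U hU
      omega
    refine ⟨fun R hR => (JRB3.upper_one hn hS hu hw1 R hR).2 hn3, ?_⟩
    intro k hk
    by_contra hlt
    obtain ⟨R, hR, hne⟩ := exists_nonzero (F := F) (by omega : 2 ≤ n) hS hu
    apply hne
    have h2 : R ^ 1 = 0 := pow_eq_zero_of_le (by omega) (hk R hR)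
    simpa using h2
  · intro hn4 hw1
    subst hw1
    have hw1 : ∀ U : Submodule F (Fin n → F), (∀ u ∈ U, ∀ v ∈ U, bf S u v = 0) → finrank F U ≤ 1 :=
      fun U hU => hw.2 ⟨U, hU, rfl⟩
    refine ⟨fun R hR => (JRB3.upper_one hn hS hu hw1 R hR).1, ?_⟩
    intro k hk
    by_contra hlt
    obtain ⟨U, hU, hd⟩ := hw.1
    have hne : U ≠ ⊥ := by
      intro h
      rw [h, finrank_bot] at hd
      exact absurd hd (by norm_num)
    obtain ⟨e, heU, he⟩ := Submodule.exists_mem_ne_zero_of_ne_bot hne
    obtain ⟨R, hR, hne2⟩ := JRB3.lower_one hn4 hS hu hw1 e he (hU e heU e heU)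
    exact hne2 (pow_eq_zero_of_le (by omega) (hk R hR))

end Pool.Agent.Results.MP_f4742e_al.DegreeThreeAndWittOne
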