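import Mathlib
import Pool.Agent.H563R3.Small

open Matrix Module

namespace Pool.Agent.Results.MP_f4742e_al.WittBounds

open JRB JRB2

/-- The set of all natural numbers `k` such that `R ^ k = 0` for every Rota-Baxter operator `R` of
weight `0` for the product `mul`. -/
def rbSet (F : Type*) [Field F] {V : Type*} [AddCommGroup V] [Module F V] (mul : V → V → V) : Set ℕ :=
  {k | ∀ R : V →ₗ[F] V, IsRB F mul R → R ^ k = 0}

/-- `m` is the RB-index of the algebra `(V, mul)`. -/
def IsRBIndex (F : Type*) [Field F] {V : Type*} [AddCommGroup V] [Module F V] (mul : V → V → V)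
    (m : ℕ) : Prop := IsLeast (rbSet F mul) m

/-- `w` is the Witt index of the symmetric bilinear form with Gram matrix `S`: the largest dimension
of a totally isotropic subspace. -/
def IsWittIndex {F : Type*} [Field F] {n : ℕ} (S : Matrix (Fin n) (Fin n) F) (w : ℕ) : Prop :=
  IsGreatest {d | ∃ U : Submodule F (Fin n → F), (∀ u ∈ U, ∀ v ∈ U, bf S u v = 0) ∧ finrank F U = d} w

theorem main {F : Type*} [Field F] [CharZero F] {n : ℕ} (hn : 3 ≤ n) {S : Matrix (Fin n) (Fin n) F}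
    (hS : Sᵀ = S) (hu : IsUnit S.det) (w : ℕ) (hw : IsWittIndex S w) :
    ∃ r, IsRBIndex F (hermMul (adjS S) (adjS_mul hu)) r ∧ max 2 (2 * w - 1) ≤ r ∧
      r ≤ 2 * min (w + 1) ((n + 1) / 2) := by
  classical
  have hup : 2 * min (w + 1) ((n + 1) / 2) ∈ rbSet F (hermMul (adjS S) (adjS_mul hu)) := by
    intro R hR
    exact upper_bound hn hS hu w (fun U hU => hw.2 ⟨U, hU, rfl⟩) R hR
  have hex : ∃ k, k ∈ rbSet F (hermMul (adjS S) (adjS_mul hu)) := ⟨_, hup⟩
  refine ⟨Nat.find hex, ⟨Nat.find_spec hex, fun k hk => Nat.find_min' hex hk⟩, ?_, Nat.find_min' hex hup⟩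
  have hsp := Nat.find_spec hex
  set r := Nat.find hex
  apply max_le
  · obtain ⟨R, hR, hne⟩ := exists_nonzero (F := F) (by omega : 2 ≤ n) hS hu
    by_contra hlt
    apply hne
    have h1 := hsp R hR
    have h2 : R ^ 1 = 0 := pow_eq_zero_of_le (by omega) h1
    simpa using h2
  · rcases Nat.eq_zero_or_pos w with h0 | h0
    · omega
    · obtain ⟨U, hU, hd⟩ := hw.1
      obtain ⟨R, hR, hne⟩ := lower_bound hS hu w h0 U hU hd
      by_contra hlt
      apply hne
      exact pow_eq_zero_of_le (by omega) (hsp R hR)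

theorem closed_eq {F : Type*} [Field F] [CharZero F] {n : ℕ} {S : Matrix (Fin n) (Fin n) F}
    (hS : Sᵀ = S) (hu : IsUnit S.det) (w : ℕ) (hw : IsWittIndex S w) (hF : IsAlgClosed F) : w = n / 2 := by
  have h1 := witt_closed hS w hw
  obtain ⟨U, hU, hd⟩ := hw.1
  obtain ⟨P, Q, hPP, hQQ, hQP, hPQ⟩ := exists_PQ hS hu U hU hd
  let ψ : ((Fin w → F) × (Fin w → F)) →ₗ[F] (Fin n → F) := (Matrix.toLin' P).coprod (Matrix.toLin' Q)
  have hinj : Function.Injective ψ := by
    rw [injective_iff_map_eq_zero]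
    rintro ⟨c, d⟩ hcd
    have h2 : P *ᵥ c + Q *ᵥ d = 0 := hcd
    have h3 := congrArg (fun v => (Qᵀ * S) *ᵥ v) h2
    have h4 := congrArg (fun v => (Pᵀ * S) *ᵥ v) h2
    simp only [Matrix.mulVec_add, Matrix.mulVec_mulVec, hPP, hQQ, hQP, hPQ, Matrix.one_mulVec, Matrix.zero_mulVec,
      Matrix.mulVec_zero, add_zero, zero_add] at h3 h4
    rw [h3, h4]; rfl
  have h5 := LinearMap.finrank_le_finrank_of_injective hinj
  rw [Module.finrank_prod, Module.finrank_fin_fun, Module.finrank_fin_fun] at h5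
  omega

/-- **Theorem.** Let `F` be a field of characteristic `0`, `n ≥ 3`, `S` an invertible symmetric
`n × n` matrix over `F` and `w` the Witt index of the symmetric bilinear form with Gram matrix `S`
(so `w = ⌊n/2⌋` if `F` is algebraically closed). The RB-index `r` of the Jordan algebra
`H(M_n(F), x ↦ S⁻¹ xᵀ S)` of self-adjoint matrices satisfies
`max (2, 2w - 1) ≤ r ≤ 2 min (w + 1, ⌈n/2⌉)`.

For `S = 1` this is the algebra `H_n(F)` of symmetric matrices. If the form is anisotropic, `r = 2`;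
if `F` is algebraically closed, then `n - 1 ≤ r ≤ n` for even `n` and `n - 2 ≤ r ≤ n + 1` for odd `n`. -/
theorem result (F : Type*) [Field F] [CharZero F] (n : ℕ) (hn : 3 ≤ n)
    (S : Matrix (Fin n) (Fin n) F) (hS : Sᵀ = S) (hu : IsUnit S.det) (w : ℕ) (hw : IsWittIndex S w) :
    ∃ r, IsRBIndex F (hermMul (adjS S) (adjS_mul hu)) r ∧ max 2 (2 * w - 1) ≤ r ∧
      r ≤ 2 * min (w + 1) ((n + 1) / 2) ∧ (IsAlgClosed F → w = n / 2) := by
  obtain ⟨r, h1, h2, h3⟩ := main hn hS hu w hw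
  exact ⟨r, h1, h2, h3, closed_eq hS hu w hw⟩

end Pool.Agent.Results.MP_f4742e_al.WittBounds
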